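import Pool.Agent.MP_b5e119_nt.GS.Top

set_option autoImplicit false

namespace Pool.Agent.Results.MP_b5e119_nt.CharTwoGoldbach

open Polynomial
open scoped Classical

/-- Binary Goldbach for polynomials over every finite field of characteristic two, with the
Hardy-Littlewood asymptotic for the number of representations whose summand of degree `n` lies in
a prescribed short interval, uniformly in `F`, the interval and `l ^ 21 ≤ n`. -/
theorem result (k : Type) [Field k] [Finite k] [CharP k 2] (ε : ℝ) (hε : 0 < ε) :
    ∃ n₀ : ℕ, ∀ (n l : ℕ) (F A : k[X]), n₀ ≤ n → l ^ 21 ≤ n → F.Monic → F.natDegree = n + 1 →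
      A.Monic → A.natDegree = n → (Nat.card k = 2 → X * (X + 1) ∣ F) →
      |(n : ℝ) * (n + 1) *
          Nat.card {P : k[X] // P.Monic ∧ P.natDegree = n ∧ (P - A).degree < (n - l : ℕ) ∧
            Irreducible P ∧ Irreducible (F - P)} /
          (Nat.card k : ℝ) ^ (n - l) /
          (∏' p : {p : k[X] // p.Monic ∧ Irreducible p},
            (1 - (if p.1 ∣ F then 1 else 2) / (Nat.card k : ℝ) ^ p.1.natDegree) /
              (1 - 1 / (Nat.card k : ℝ) ^ p.1.natDegree) ^ 2) - 1| ≤ ε :=
  Pool.Agent.HGS.short_full k ε hε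

end Pool.Agent.Results.MP_b5e119_nt.CharTwoGoldbach
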