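import Pool.Agent.MP_b5e119_nt.G38.Main

open Finset

theorem Pool.Agent.Results.MP_b5e119_nt.LiouvillePairs.result :
    ∃ c : ℝ, 0 < c ∧ ∃ N₀ : ℕ, ∀ N : ℕ, N₀ ≤ N →
      ∀ e e' : ℤ, (e = 1 ∨ e = -1) → (e' = 1 ∨ e' = -1) → ∃ μ : ℝ,
        IsLeast (insert 1 {t : ℝ | ∃ (q : ℕ) (ψ : DirichletCharacter ℂ q), q ∣ N ∧ ψ ^ 2 = 1 ∧
          ψ (-1) = -((e * e' : ℤ) : ℂ) ∧
          t = ∑ p ∈ (Icc 1 N).filter fun p : ℕ => p.Prime ∧ ψ (p : ZMod q) ≠ -1,
            1 / (p : ℝ) ^ (1 + (N / q).factorization p)}) μ ∧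
        c * μ * N ≤ ((Icc 1 (N - 1)).filter fun a =>
          ArithmeticFunction.liouville a = e ∧ ArithmeticFunction.liouville (N - a) = e').card ∧
        (((Icc 1 (N - 1)).filter fun a =>
          ArithmeticFunction.liouville a = e ∧ ArithmeticFunction.liouville (N - a) = e').card : ℝ) ≤
          2 * μ * N := by
  obtain ⟨c, hc, N₀, h1⟩ := Pool.Agent.G38.ord
  refine ⟨c, hc, N₀ + 1, fun N hN e e' he he' => ?_⟩
  have : NeZero N := ⟨by omega⟩
  have e0 : ((Icc 1 (N - 1)).filter fun a =>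
      ArithmeticFunction.liouville a = e ∧ ArithmeticFunction.liouville (N - a) = e').card =
      Pool.Agent.G60.cnt N e e' := by
    unfold Pool.Agent.G60.cnt
    congr 1
    refine filter_congr fun a ha => ?_
    rw [mem_Icc] at ha
    rw [ArithmeticFunction.liouville_apply (by omega),
      ArithmeticFunction.liouville_apply (by omega)]
    rfl
  have e1 : ∀ (q : ℕ) (ψ : DirichletCharacter ℂ q),
      ∑ p ∈ (Icc 1 N).filter fun p : ℕ => p.Prime ∧ ψ (p : ZMod q) ≠ -1,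
        1 / (p : ℝ) ^ (1 + (N / q).factorization p) = Pool.Agent.G38.TA N q ψ := by
    intro q ψ
    unfold Pool.Agent.G38.TA Pool.Agent.G38.PW
    refine sum_congr (filter_congr fun p _ => and_congr_right fun _ => not_congr ?_)
      fun p _ => by rw [Nat.cast_pow]
    unfold Pool.Agent.G27.re
    split_ifs with a b
    · rw [a]
      norm_num
    · simp [b]
    · simp [b]
  obtain ⟨μ, m, a1, a2, a3, -⟩ := h1 N (by omega) e e' he he'
  rw [e0]
  simp only [e1]
  exact ⟨μ, a1, a2, a3⟩
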