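import Pool.Agent.MP_b5e119_nt.G42A.Main

open Finset

theorem Pool.Agent.Results.MP_b5e119_nt.PrimeProportion.result :
    ∀ η : ℝ, 0 < η → ∃ c : ℝ, 0 < c ∧ ∀ A : ℕ, ∃ X₀ : ℕ, ∀ X : ℕ, X₀ ≤ X →
      ∃ (q : ℕ) (_ : NeZero q) (ψ : DirichletCharacter ℂ q), ψ.IsPrimitive ∧ ψ ^ 2 = 1 ∧
        ∀ M N : ℕ, X ≤ M → M ≤ X ^ 2 → 0 < N → M ∣ N →
          ∀ e e' : ℤ, (e = 1 ∨ e = -1) → (e' = 1 ∨ e' = -1) →
            (((Icc 1 (N - 1)).filter fun a => ArithmeticFunction.liouville a = e ∧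
              ArithmeticFunction.liouville (N - a) = e').card : ℝ) < c * M →
            Real.log X ^ A ≤ q ∧ q ∣ M ∧ ψ (-1) = -(e * e' : ℤ) ∧
              ∃ σ : ℝ, 1 - η / Real.log X ≤ σ ∧ σ < 1 ∧
                DirichletCharacter.LFunction ψ σ = 0 := by
  intro η hη
  obtain ⟨c, hc, h⟩ := Pool.Agent.G42.topb η hη
  refine ⟨c, hc, fun A => ?_⟩
  obtain ⟨X₀, h⟩ := h A
  refine ⟨X₀, fun X hX => ?_⟩
  obtain ⟨q, i, ψ, h1, h2, h⟩ := h X hX
  refine ⟨q, i, ψ, h1, h2, fun M N a1 a2 a4 a5 e e' he he' hq =>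
    h M N a1 a2 a4 a5 e e' he he' ?_⟩
  have e0 : ((Icc 1 (N - 1)).filter fun a =>
      ArithmeticFunction.liouville a = e ∧ ArithmeticFunction.liouville (N - a) = e').card =
      Pool.Agent.G60.cnt N e e' := by
    unfold Pool.Agent.G60.cnt
    congr 1
    refine filter_congr fun a ha => ?_
    rw [mem_Icc] at ha
    rw [ArithmeticFunction.liouville_apply (by omega),
      ArithmeticFunction.liouville_apply (by omega)]
    rfl
  rwa [e0] at hq
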