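import Mathlib
import Pool.Agent.MP_b5e119_nt.Mg.Dyn

namespace Pool.Agent.Results.MP_b5e119_nt.TwoThirds

/-- For every `ε > 0` and all large `N`: if `g_N ≥ (2/3 + ε) N` then `g_N + 1` and
`2N - g_N - 1` are both prime. -/
theorem result :
    ∀ ε : ℝ, 0 < ε → ∃ N₀ : ℕ, ∀ N : ℕ, N₀ ≤ N →
      ∀ a : ℕ → ℤ,
        a 1 = (N : ℤ) - 2 →
        (∀ n : ℕ, 2 ≤ n →
          a n = a (n - 1) -
            ((Int.gcd (a (n - 1)) ((N : ℤ) - (-1 : ℤ) ^ n * ((N : ℤ) - (n : ℤ))) : ℕ) : ℤ)) →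
        ∀ g : ℕ, IsLeast {n : ℕ | 2 ≤ n ∧ a n = 0} g →
          (2 / 3 + ε) * (N : ℝ) ≤ (g : ℝ) →
          Nat.Prime (g + 1) ∧ Nat.Prime (2 * N - g - 1) :=
  fun ε hε => Pool.Agent.MP_b5e119_nt.main ε hε

end Pool.Agent.Results.MP_b5e119_nt.TwoThirds
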